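import Pool.Agent.H482R3.EB.Cen

/-! Task Z_ISO (helper265): isomorphisms of Artin groups. -/

set_option autoImplicit false

namespace Pool.Agent.H482R3.EB.ZISO

open Pool.Agent.H482R3.EB
open Pool.Agent.H482R3.EA (cV cW)

theorem alt_even {S G : Type} [Group G] (f : S → G) (k : ℕ) : ∀ s t : S,
    ((alt s t (2 * k)).map f).prod = (f s * f t) ^ k := by
  induction k with
  | zero => intro s t; simp [alt]
  | succ k ih =>
    intro s t
    have h : 2 * (k + 1) = 2 * k + 1 + 1 := by ring
    rw [h]
    show ((s :: t :: alt s t (2 * k)).map f).prod = _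
    rw [List.map_cons, List.map_cons, List.prod_cons, List.prod_cons, ih, pow_succ', mul_assoc]

theorem alt_map {S T : Type} (g : S → T) (k : ℕ) : ∀ s t : S,
    (alt s t k).map g = alt (g s) (g t) k := by
  induction k with
  | zero => intro s t; simp [alt]
  | succ k ih => intro s t; simp only [alt, List.map_cons, ih]

theorem isoJ {S V Wt : Type} (m : S → S → ℕ) (c : V ⊕ Wt → V ⊕ Wt → ℕ) (e : V ⊕ Wt ≃ S)
    (hsym : Symm m) (hev : ∀ v w, Even (m (e (.inl v)) (e (.inr w))))
    (h1 : ∀ v v', cV c v v' = m (e (.inl v)) (e (.inl v')))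
    (h2 : ∀ v v', cW c v v' = m (e (.inr v)) (e (.inr v')))
    (h3 : ∀ v w, c (.inl v) (.inr w) = m (e (.inl v)) (e (.inr w)) / 2)
    (hL : S_LIFTR) (hJ : S_LIFTJ) (hR : S_RELR) :
    ∃ Φ : AR m ≃* AJ c, ∀ x, Φ (gR m (e x)) = gJ c x := by
  obtain ⟨hR1, hR2⟩ := hR
  obtain ⟨rV, rW, rX⟩ := hR2 V Wt c
  have hX : ∀ v w, ∃ k, m (e (.inl v)) (e (.inr w)) = 2 * k ∧ c (.inl v) (.inr w) = k := by
    intro v w
    obtain ⟨k, hk⟩ := hev v w
    refine ⟨k, by omega, ?_⟩
    rw [h3, hk]; omega
  -- the map from `AR` to `AJ`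
  have key : ∀ x y : V ⊕ Wt, x ≠ y → m (e x) (e y) ≠ 0 →
      ((alt x y (m (e x) (e y))).map (gJ c)).prod =
        ((alt y x (m (e x) (e y))).map (gJ c)).prod := by
    intro x y hxy h0
    rcases x with x | x <;> rcases y with y | y
    · have h := rV x y (fun h => hxy (by rw [h])) (by rw [h1]; exact h0)
      rw [h1] at h
      have e1 : ∀ s t : V, ((alt (Sum.inl s : V ⊕ Wt) (Sum.inl t)
          (m (e (.inl x)) (e (.inl y)))).map (gJ c)) =
          (alt s t (m (e (.inl x)) (e (.inl y)))).map (fun a => gJ c (.inl a)) := by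
        intro s t
        rw [← alt_map (Sum.inl : V → V ⊕ Wt), List.map_map]
        rfl
      rw [e1, e1]
      exact h
    · obtain ⟨k, hk, hck⟩ := hX x y
      have hk0 : k ≠ 0 := fun h => h0 (by rw [hk, h])
      have h := rX x y (by rw [hck]; exact hk0)
      rw [hck] at h
      rw [hk, alt_even, alt_even]
      exact h
    · obtain ⟨k, hk, hck⟩ := hX y x
      rw [hsym] at h0 ⊢
      have hk0 : k ≠ 0 := fun h => h0 (by rw [hk, h])
      have h := rX y x (by rw [hck]; exact hk0)
      rw [hck] at h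
      rw [hk, alt_even, alt_even]
      exact h.symm
    · have h := rW x y (fun h => hxy (by rw [h])) (by rw [h2]; exact h0)
      rw [h2] at h
      have e1 : ∀ s t : Wt, ((alt (Sum.inr s : V ⊕ Wt) (Sum.inr t)
          (m (e (.inr x)) (e (.inr y)))).map (gJ c)) =
          (alt s t (m (e (.inr x)) (e (.inr y)))).map (fun a => gJ c (.inr a)) := by
        intro s t
        rw [← alt_map (Sum.inr : Wt → V ⊕ Wt), List.map_map]
        rfl
      rw [e1, e1]
      exact h
  obtain ⟨φ, hφ, -⟩ := hL S (AJ c) inferInstance m (fun s => gJ c (e.symm s)) (by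
    intro s t hst h0
    have h := key (e.symm s) (e.symm t) (fun h => hst (e.symm.injective h))
      (by rw [e.apply_symm_apply, e.apply_symm_apply]; exact h0)
    rw [e.apply_symm_apply, e.apply_symm_apply] at h
    have e1 : ∀ s' t' : S, (alt s' t' (m s t)).map (fun s => gJ c (e.symm s)) =
        (alt (e.symm s') (e.symm t') (m s t)).map (gJ c) := by
      intro s' t'
      rw [← alt_map e.symm, List.map_map]
      rfl
    rw [e1, e1]
    exact h)
  -- the map from `AJ` to `AR`
  obtain ⟨ψ, hψ, -⟩ := hJ V Wt (AR m) inferInstance c (fun x => gR m (e x)) (by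
    intro s t hst h0
    rw [h1] at h0 ⊢
    have h := hR1 S m (e (.inl s)) (e (.inl t))
      (fun h => hst (Sum.inl_injective (e.injective h))) h0
    rw [← alt_map (fun a : V => e (.inl a)), ← alt_map (fun a : V => e (.inl a)), List.map_map,
      List.map_map] at h
    exact h) (by
    intro s t hst h0
    rw [h2] at h0 ⊢
    have h := hR1 S m (e (.inr s)) (e (.inr t))
      (fun h => hst (Sum.inr_injective (e.injective h))) h0
    rw [← alt_map (fun a : Wt => e (.inr a)), ← alt_map (fun a : Wt => e (.inr a)), List.map_map,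
      List.map_map] at h
    exact h) (by
    intro v w h0
    obtain ⟨k, hk, hck⟩ := hX v w
    rw [hck] at h0 ⊢
    have h := hR1 S m (e (.inl v)) (e (.inr w)) (fun h => by
      have := e.injective h
      cases this) (by rw [hk]; omega)
    rw [hk, alt_even, alt_even] at h
    exact h)
  refine ⟨MonoidHom.toMulEquiv φ ψ ?_ ?_, ?_⟩
  · refine PresentedGroup.ext fun s => ?_
    show ψ (φ (gR m s)) = gR m s
    rw [hφ, hψ, e.apply_symm_apply]
  · refine PresentedGroup.ext fun x => ?_
    show φ (ψ (gJ c x)) = gJ c x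
    rw [hψ, hφ, e.symm_apply_apply]
  · intro x
    show φ (gR m (e x)) = gJ c x
    rw [hφ, e.symm_apply_apply]

theorem altW {S : Type} (n : ℕ) (i j : S) : CoxeterSystem.alternatingWord i j n =
    if Even n then alt i j n else alt j i n := by
  induction n with
  | zero => simp [CoxeterSystem.alternatingWord, alt]
  | succ n ih =>
    rw [CoxeterSystem.alternatingWord_succ']
    by_cases h : Even n
    · have h' : ¬ Even (n + 1) := by rw [Nat.even_add_one]; exact fun h2 => h2 h
      rw [if_pos h, if_neg h', ih, if_pos h]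
      rfl
    · have h' : Even (n + 1) := by rw [Nat.even_add_one]; exact h
      rw [if_neg h, if_pos h', ih, if_neg h]
      rfl

theorem isoA {n : ℕ} (m : Fin n → Fin n → ℕ) (hL : S_LIFTR)
    (hR : S_RELR) : ∃ Φ : Art m ≃* AR m, ∀ s, Φ (PresentedGroup.of s) = gR m s := by
  obtain ⟨hR1, -⟩ := hR
  -- relations of `Art`
  have hA : ∀ i j, m i j ≠ 0 →
      ((CoxeterSystem.alternatingWord i j (m i j)).map (PresentedGroup.of : Fin n → Art m)).prod =
      ((CoxeterSystem.alternatingWord j i (m i j)).map (PresentedGroup.of : Fin n → Art m)).prod := by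
    intro i j h0
    have h1 : PresentedGroup.mk {r : FreeGroup (Fin n) | ∃ i j : Fin n, m i j ≠ 0 ∧
      r = ((CoxeterSystem.alternatingWord i j (m i j)).map FreeGroup.of).prod *
        (((CoxeterSystem.alternatingWord j i (m i j)).map FreeGroup.of).prod)⁻¹}
      (((CoxeterSystem.alternatingWord i j (m i j)).map FreeGroup.of).prod *
        (((CoxeterSystem.alternatingWord j i (m i j)).map FreeGroup.of).prod)⁻¹) = 1 :=
      PresentedGroup.one_of_mem ⟨i, j, h0, rfl⟩
    rw [map_mul, map_inv, mul_inv_eq_one, map_list_prod, map_list_prod, List.map_map,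
      List.map_map] at h1
    exact h1
  obtain ⟨φ, hφ, -⟩ := hL (Fin n) (Art m) inferInstance m (PresentedGroup.of : Fin n → Art m) (by
    intro s t _ h0
    have h := hA s t h0
    rw [altW, altW] at h
    split_ifs at h
    · exact h
    · exact h.symm)
  have hB : ∀ r ∈ {r : FreeGroup (Fin n) | ∃ i j : Fin n, m i j ≠ 0 ∧
      r = ((CoxeterSystem.alternatingWord i j (m i j)).map FreeGroup.of).prod *
        (((CoxeterSystem.alternatingWord j i (m i j)).map FreeGroup.of).prod)⁻¹},
      FreeGroup.lift (gR m) r = 1 := by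
    rintro r ⟨i, j, h0, rfl⟩
    rw [map_mul, map_inv, mul_inv_eq_one, map_list_prod, map_list_prod, List.map_map,
      List.map_map]
    have e : (⇑(FreeGroup.lift (gR m)) ∘ FreeGroup.of) = gR m := by
      funext a; simp
    rw [e]
    by_cases hij : i = j
    · rw [hij]
    · have h := hR1 (Fin n) m i j hij h0
      rw [altW, altW]
      split_ifs
      · exact h
      · exact h.symm
  let ψ : Art m →* AR m := PresentedGroup.toGroup hB
  have hψ : ∀ s, ψ (PresentedGroup.of s) = gR m s := fun s => PresentedGroup.toGroup.of hB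
  refine ⟨MonoidHom.toMulEquiv ψ φ ?_ ?_, hψ⟩
  · refine PresentedGroup.ext fun s => ?_
    show φ (ψ (PresentedGroup.of s)) = PresentedGroup.of s
    rw [hψ, hφ]
  · refine PresentedGroup.ext fun s => ?_
    show ψ (φ (gR m s)) = gR m s
    rw [hφ, hψ]

theorem t_ISOJ (hL : S_LIFTR) (hJ : S_LIFTJ) (hR : S_RELR) : S_ISOJ := by
  intro a b n m e hsym hev
  obtain ⟨Φ, -⟩ := isoJ m (jn m e) e hsym hev (fun _ _ => rfl) (fun _ _ => rfl)
    (fun _ _ => rfl) hL hJ hR
  exact ⟨Φ⟩

theorem t_ISOA (hL : S_LIFTR) (_ : S_LIFTJ) (hR : S_RELR) : S_ISOA := by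
  intro n m _ _
  obtain ⟨Φ, -⟩ := isoA m hL hR
  exact ⟨Φ⟩

end Pool.Agent.H482R3.EB.ZISO
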